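import Pool.Agent.helper9.HX.Spec

/-! # Project hx (MP_d9e35a_co), row DOM -/

set_option autoImplicit false
set_option linter.unusedVariables false

open scoped Classical

namespace Pool.Agent.helper9.HX

open Finset
open Pool.Agent.helper65.HC (V IsEig IsTop lam)
open Pool.Agent.helper9.HQ (Fam Dn E N Le hi c)

theorem DOM : DOM_stmt := by
  intro d P f hP hf
  constructor
  · have h1 : ∀ i : Fin d, ∑ x ∈ P.filter (fun x => i ∈ x), f x = ∑ x ∈ P, if i ∈ x then f x else 0 :=
      fun i => Finset.sum_filter _ _
    rw [Finset.sum_congr rfl fun i _ => h1 i, Finset.sum_comm, Finset.mul_sum]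
    refine Finset.sum_congr rfl fun x hx => ?_
    rw [← Finset.sum_filter, Finset.sum_const, Finset.filter_mem_eq_inter, Finset.univ_inter, hP x hx,
      nsmul_eq_mul]
    norm_num
  · have h1 : ∀ i : Fin d, (∑ x ∈ P.filter (fun x => i ∈ x), f x) ^ 2 =
        ∑ x ∈ P, ∑ y ∈ P, if i ∈ x ∩ y then f x * f y else 0 := by
      intro i
      rw [Finset.sum_filter, pow_two, Finset.sum_mul_sum]
      refine Finset.sum_congr rfl fun x _ => Finset.sum_congr rfl fun y _ => ?_
      by_cases hx : i ∈ x <;> by_cases hy : i ∈ y <;> simp [hx, hy]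
    rw [Finset.sum_congr rfl fun i _ => h1 i, Finset.sum_comm]
    have h2 : ∀ x ∈ P, ∑ i : Fin d, ∑ y ∈ P, (if i ∈ x ∩ y then f x * f y else 0) ≤
        ∑ y ∈ P, (f x * f y + if x = y then f x ^ 2 else 0) := by
      intro x hx
      rw [Finset.sum_comm]
      refine Finset.sum_le_sum fun y hy => ?_
      rw [← Finset.sum_filter, Finset.sum_const, Finset.filter_mem_eq_inter, Finset.univ_inter,
        nsmul_eq_mul]
      have hxy : 0 ≤ f x * f y := mul_nonneg (hf x) (hf y)
      by_cases h : x = y
      · subst h
        rw [if_pos rfl, Finset.inter_self, hP x hx]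
        push_cast
        nlinarith
      · rw [if_neg h, add_zero]
        have h3 : (x ∩ y).card ≤ 1 := by
          by_contra hc
          push Not at hc
          have h4 : x ∩ y = x := Finset.eq_of_subset_of_card_le Finset.inter_subset_left (by rw [hP x hx]; omega)
          have h5 : x ∩ y = y := Finset.eq_of_subset_of_card_le Finset.inter_subset_right (by rw [hP y hy]; omega)
          exact h (h4.symm.trans h5)
        have h4 : ((x ∩ y).card : ℝ) ≤ 1 := by exact_mod_cast h3
        nlinarith
    refine (Finset.sum_le_sum h2).trans (le_of_eq ?_)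
    have h3 : ∀ x ∈ P, ∑ y ∈ P, (f x * f y + if x = y then f x ^ 2 else 0) =
        f x * (∑ y ∈ P, f y) + f x ^ 2 := by
      intro x hx
      rw [Finset.sum_add_distrib, ← Finset.mul_sum, Finset.sum_ite_eq, if_pos hx]
    rw [Finset.sum_congr rfl h3, Finset.sum_add_distrib, ← Finset.sum_mul, pow_two]

end Pool.Agent.helper9.HX
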